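import Pool.Agent.Helper32.B4.St

set_option autoImplicit false

/-! B4, module CT: approximation of a continuous function by step functions. -/

open Metric Set Filter Topology MeasureTheory
open scoped ComplexConjugate Interval

namespace Pool.Agent.Helper41.B4

open Pool.Agent.Helper32.B4 Pool.Agent.Helper32.DX Pool.Agent.Helper64.C3

theorem Qf_congr {s s' : ℝ → ℝ} (h : ∀ u ∈ Icc (0 : ℝ) 1, s u = s' u) : Qf s = Qf s' := by
  unfold Qf
  congr 1
  · refine intervalIntegral.integral_congr fun u hu => ?_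
    rw [uIcc_of_le zero_le_one] at hu
    simp only [h u hu]
  · congr 1
    refine intervalIntegral.integral_congr fun u hu => ?_
    rw [uIcc_of_le zero_le_one] at hu
    simp only [h u hu]
    congr 1
    refine intervalIntegral.integral_congr fun v hv => ?_
    rw [uIcc_of_le hu.2] at hv
    simp only [h v ⟨hu.1.trans hv.1, hv.2⟩]

/-- splitting bound -/
theorem split_bd {f : ℝ → ℝ} {b A B : ℝ} (hf : Measurable f) (hb0 : 0 < b) (hb1 : b ≤ 1)
    (hA : ∀ u ∈ Ioc b 1, |f u| ≤ A) (hB : ∀ u ∈ Ioc 0 b, |f u| ≤ B) (hA0 : 0 ≤ A) :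
    |∫ u in (0:ℝ)..1, f u| ≤ A + B * b := by
  have i1 : IntervalIntegrable f volume 0 b := by
    refine ii_of_bdd (C := B) hf.aestronglyMeasurable fun u hu => ?_
    rw [uIoc_of_le hb0.le] at hu
    exact hB u hu
  have i2 : IntervalIntegrable f volume b 1 := by
    refine ii_of_bdd (C := A) hf.aestronglyMeasurable fun u hu => ?_
    rw [uIoc_of_le hb1] at hu
    exact hA u hu
  rw [← intervalIntegral.integral_add_adjacent_intervals i1 i2]
  have h1 : ‖∫ u in (0:ℝ)..b, f u‖ ≤ B * |b - 0| := by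
    refine intervalIntegral.norm_integral_le_of_norm_le_const fun u hu => ?_
    rw [uIoc_of_le hb0.le] at hu
    exact hB u hu
  have h2 : ‖∫ u in b..1, f u‖ ≤ A * |1 - b| := by
    refine intervalIntegral.norm_integral_le_of_norm_le_const fun u hu => ?_
    rw [uIoc_of_le hb1] at hu
    exact hA u hu
  rw [sub_zero, abs_of_pos hb0, Real.norm_eq_abs] at h1
  rw [abs_of_nonneg (by linarith), Real.norm_eq_abs] at h2
  have h3 := abs_add_le (∫ u in (0:ℝ)..b, f u) (∫ u in b..1, f u)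
  have h4 : A * (1 - b) ≤ A := by nlinarith
  linarith

theorem sqrt_int_le {f : ℝ → ℝ} {C : ℝ} (hC : 0 ≤ C) (hf : ∀ u, |f u| ≤ C) :
    Real.sqrt (∫ u in (0:ℝ)..1, f u ^ 2) ≤ C := by
  rw [Real.sqrt_le_left hC]
  have h2 : ‖∫ u in (0:ℝ)..1, f u ^ 2‖ ≤ C ^ 2 * |1 - 0| := by
    refine intervalIntegral.norm_integral_le_of_norm_le_const fun u _ => ?_
    rw [norm_pow, Real.norm_eq_abs]
    exact pow_le_pow_left₀ (abs_nonneg _) (hf u) 2
  rw [Real.norm_eq_abs, sub_zero, abs_one, mul_one] at h2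
  exact (le_abs_self _).trans h2

theorem hCT : StQC → StCT := by
  intro hQC s hs η hη
  obtain ⟨C, hC1, hC⟩ : ∃ C : ℝ, 1 ≤ C ∧ ∀ u ∈ Icc (0:ℝ) 1, |s u| ≤ C := by
    obtain ⟨C0, hC0⟩ := isCompact_Icc.exists_bound_of_continuousOn (s := Icc (0:ℝ) 1)
      hs.continuousOn
    exact ⟨max C0 1, le_max_right _ _, fun u hu => (hC0 u hu).trans (le_max_left _ _)⟩
  have hCp : 0 < C := by linarith
  obtain ⟨g, hg⟩ : ∃ g : ℝ → ℝ, g = fun u => s (max 0 (min 1 u)) := ⟨_, rfl⟩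
  have hgc : Continuous g := by rw [hg]; fun_prop
  have hgs : ∀ u ∈ Icc (0:ℝ) 1, g u = s u := by
    intro u hu
    rw [hg]
    simp only
    rw [min_eq_right hu.2, max_eq_right hu.1]
  have hgC : ∀ u, |g u| ≤ C := by
    intro u
    rw [hg]
    exact hC _ ⟨le_max_left _ _, max_le zero_le_one (min_le_left _ _)⟩
  -- parameters
  obtain ⟨δ, hδ⟩ : ∃ δ : ℝ, δ = η / (200 * C) := ⟨_, rfl⟩
  have hδ0 : 0 < δ := by rw [hδ]; positivity
  have hδη : 200 * C * δ = η := by rw [hδ]; field_simp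
  obtain ⟨ω, hω, hu⟩ := Metric.uniformContinuousOn_iff.1
    (isCompact_Icc.uniformContinuousOn_of_continuous (s := Icc (0:ℝ) 1) hs.continuousOn)
    (δ / 2) (by positivity)
  obtain ⟨n, hn⟩ : ∃ n : ℕ, 1 / ((n : ℝ) + 1) < min ω (min (δ ^ 2 / (2 * C ^ 2)) (η / (2 * C ^ 2))) :=
    exists_nat_one_div_lt (lt_min hω (lt_min (by positivity) (by positivity)))
  obtain ⟨b, hb⟩ : ∃ b : ℝ, b = 1 / ((n : ℝ) + 1) := ⟨_, rfl⟩
  rw [← hb] at hn
  have hn1 : (0 : ℝ) < (n : ℝ) + 1 := by positivity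
  have hb0 : 0 < b := by rw [hb]; positivity
  have hb1 : b ≤ 1 := by
    rw [hb, div_le_one hn1]
    have : (0 : ℝ) ≤ n := Nat.cast_nonneg n
    linarith
  have hbn : b * ((n : ℝ) + 1) = 1 := by rw [hb]; field_simp
  have hbω : b < ω := hn.trans_le (min_le_left _ _)
  have hbδ : C ^ 2 * b ≤ δ ^ 2 / 2 := by
    have h1 : b ≤ δ ^ 2 / (2 * C ^ 2) := (hn.trans_le ((min_le_right _ _).trans (min_le_left _ _))).le
    rw [le_div_iff₀ (by positivity)] at h1
    linarith
  have hbη : C ^ 2 * b ≤ η / 2 := by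
    have h1 : b ≤ η / (2 * C ^ 2) := (hn.trans_le ((min_le_right _ _).trans (min_le_right _ _))).le
    rw [le_div_iff₀ (by positivity)] at h1
    linarith
  obtain ⟨a, ha⟩ : ∃ a : ℕ → ℝ, a = fun i : ℕ => 1 - (i : ℝ) * b := ⟨_, rfl⟩
  have ha' : ∀ i, a i = 1 - (i : ℝ) * b := fun i => by rw [ha]
  have hdec : ∀ i < n, a (i + 1) ≤ a i := by
    intro i _
    rw [ha', ha']
    push_cast
    nlinarith
  have han : a n = b := by
    rw [ha']
    linarith
  obtain ⟨t, ht⟩ : ∃ t : ℕ → ℝ, t = fun i => s (a i) := ⟨_, rfl⟩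
  obtain ⟨σ, hσ⟩ : ∃ σ : ℝ → ℝ, σ = stepf a t n := ⟨_, rfl⟩
  have hpos : ∀ i ≤ n, b ≤ a i ∧ a i ≤ 1 := by
    intro i hi
    rw [ha']
    have h1 : (i : ℝ) ≤ n := by exact_mod_cast hi
    have h2 : (0 : ℝ) ≤ i := Nat.cast_nonneg i
    constructor
    · nlinarith
    · nlinarith
  -- the values of the step function
  have hσ1 : ∀ u ∈ Ioc b 1, |g u - σ u| ≤ δ / 2 ∧ |σ u| ≤ C := by
    intro u hu'
    obtain ⟨i, hi⟩ : ∃ i : ℕ, i = ⌊(1 - u) * ((n : ℝ) + 1)⌋₊ := ⟨_, rfl⟩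
    have h0 : 0 ≤ (1 - u) * ((n : ℝ) + 1) := mul_nonneg (by linarith [hu'.2]) hn1.le
    have h1 : (i : ℝ) ≤ (1 - u) * ((n : ℝ) + 1) := by rw [hi]; exact Nat.floor_le h0
    have h2 : (1 - u) * ((n : ℝ) + 1) < i + 1 := by rw [hi]; exact Nat.lt_floor_add_one _
    have h3 : i < n := by
      rw [hi, Nat.floor_lt h0]
      have := hu'.1
      nlinarith
    have h4 : u ∈ Ioc (a (i + 1)) (a i) := by
      rw [ha', ha']
      push_cast
      have e : (1 - u) * ((n : ℝ) + 1) * b = 1 - u := by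
        rw [mul_assoc, mul_comm ((n : ℝ) + 1) b, hbn, mul_one]
      constructor
      · have := mul_lt_mul_of_pos_right h2 hb0
        linarith
      · have := mul_le_mul_of_nonneg_right h1 hb0.le
        linarith
    have h5 : σ u = s (a i) := by
      rw [hσ, stepf_of_mem hdec h3 h4, ht]
    have h6 := hpos i h3.le
    have h7 : a i ∈ Icc (0:ℝ) 1 := ⟨by linarith, h6.2⟩
    have h8 : u ∈ Icc (0:ℝ) 1 := ⟨by linarith [hu'.1], hu'.2⟩
    rw [h5]
    refine ⟨?_, hC _ h7⟩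
    rw [hgs u h8]
    have h9 : dist u (a i) < ω := by
      rw [Real.dist_eq, abs_sub_comm, abs_of_nonneg (by linarith [h4.2])]
      have e1 : a (i + 1) = a i - b := by rw [ha', ha']; push_cast; ring
      have := h4.1
      linarith
    have h10 := hu u h8 (a i) h7 h9
    rw [Real.dist_eq] at h10
    exact h10.le
  have hσ2 : ∀ u, u ≤ b → σ u = 0 := by
    intro u hu'
    rw [hσ]
    exact stepf_of_le hdec (by rw [han]; exact hu')
  have hσC : ∀ u, |σ u| ≤ C := by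
    intro u
    rcases le_or_gt u b with h | h
    · rw [hσ2 u h, abs_zero]; exact hCp.le
    · rcases le_or_gt u 1 with h1 | h1
      · exact (hσ1 u ⟨h, h1⟩).2
      · rw [hσ, stepf_of_gt hdec (by rw [ha']; simpa using h1), abs_zero]
        exact hCp.le
  have hσm : Measurable σ := by rw [hσ]; exact stepf_meas _ _ _
  refine ⟨a, t, n, by rw [ha']; simp, fun i hi => ⟨?_, hdec i hi⟩, ?_, ?_⟩
  · exact hb0.trans_le (hpos (i + 1) (by omega)).1
  · rw [← hσ, ← Qf_congr hgs]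
    have h1 := hQC g σ hgc.measurable ⟨C, hgC⟩ hσm ⟨C, hσC⟩
    have h2 : |∫ u in (0:ℝ)..1, (g u - σ u) ^ 2| ≤ (δ / 2) ^ 2 + C ^ 2 * b := by
      refine split_bd ((hgc.measurable.sub hσm).pow_const 2) hb0 hb1 ?_ ?_ (sq_nonneg _)
      · intro u hu'
        rw [abs_pow]
        exact pow_le_pow_left₀ (abs_nonneg _) (hσ1 u hu').1 2
      · intro u hu'
        rw [hσ2 u hu'.2, sub_zero, abs_pow]
        exact pow_le_pow_left₀ (abs_nonneg _) (hgC u) 2
    have h3 : Real.sqrt (∫ u in (0:ℝ)..1, (g u - σ u) ^ 2) ≤ δ := by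
      rw [Real.sqrt_le_left hδ0.le]
      have := le_abs_self (∫ u in (0:ℝ)..1, (g u - σ u) ^ 2)
      nlinarith
    have h4 := sqrt_int_le hCp.le hgC
    have h5 := sqrt_int_le hCp.le hσC
    have h6 : 0 ≤ Real.sqrt (∫ u in (0:ℝ)..1, (g u - σ u) ^ 2) := Real.sqrt_nonneg _
    calc |Qf g - Qf σ| ≤ 100 * Real.sqrt (∫ u in (0:ℝ)..1, (g u - σ u) ^ 2) *
          (Real.sqrt (∫ u in (0:ℝ)..1, g u ^ 2) + Real.sqrt (∫ u in (0:ℝ)..1, σ u ^ 2)) := h1
      _ ≤ 100 * δ * (C + C) := by gcongr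
      _ = η := by rw [← hδη]; ring
  · rw [← hσ]
    have e1 : (∫ u in (0:ℝ)..1, s u ^ 2) = ∫ u in (0:ℝ)..1, g u ^ 2 := by
      refine intervalIntegral.integral_congr fun u hu' => ?_
      rw [uIcc_of_le zero_le_one] at hu'
      simp only [hgs u hu']
    have i1 : IntervalIntegrable (fun u => g u ^ 2) volume 0 1 :=
      (hgc.pow 2).intervalIntegrable _ _
    have i2 : IntervalIntegrable (fun u => σ u ^ 2) volume 0 1 := by
      refine ii_of_bdd (C := C ^ 2) (hσm.pow_const 2).aestronglyMeasurable fun u _ => ?_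
      rw [norm_pow, Real.norm_eq_abs]
      exact pow_le_pow_left₀ (abs_nonneg _) (hσC u) 2
    rw [e1, ← intervalIntegral.integral_sub i1 i2]
    have h2 : |∫ u in (0:ℝ)..1, (g u ^ 2 - σ u ^ 2)| ≤ C * δ + C ^ 2 * b := by
      refine split_bd ((hgc.measurable.pow_const 2).sub (hσm.pow_const 2)) hb0 hb1 ?_ ?_
        (by positivity)
      · intro u hu'
        have h3 := (hσ1 u hu').1
        rw [show g u ^ 2 - σ u ^ 2 = (g u - σ u) * (g u + σ u) by ring, abs_mul]
        have h4 : |g u + σ u| ≤ 2 * C := (abs_add_le _ _).trans (by linarith [hgC u, hσC u])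
        calc |g u - σ u| * |g u + σ u| ≤ (δ / 2) * (2 * C) :=
              mul_le_mul h3 h4 (abs_nonneg _) (by positivity)
          _ = C * δ := by ring
      · intro u hu'
        rw [hσ2 u hu'.2]
        simp only [ne_eq, OfNat.ofNat_ne_zero, not_false_eq_true, zero_pow, sub_zero, abs_pow]
        exact pow_le_pow_left₀ (abs_nonneg _) (hgC u) 2
    refine h2.trans ?_
    nlinarith

end Pool.Agent.Helper41.B4
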